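import Pool.Agent.Helper52.SM.Goals

/-!
# Project SM: restriction and normalization of labelled lists (CLG)
-/

namespace Pool.Agent.Helper64.SM

open Pool.Agent.Helper52.SM
open Pool.Agent.Helper78

/-- The test of a term. -/
def kp {β : Type} (m : ℕ) (s : List (ℕ × Bool)) (e : List (ℕ × Bool) × β) : Bool :=
  e.1.all fun p => !s.contains (p.1, !p.2) && !e.1.contains (p.1, !p.2) &&
    !(decide (m ≤ p.1) && p.2)

/-- The restricted term. -/
def rd {β : Type} (m : ℕ) (s : List (ℕ × Bool)) (e : List (ℕ × Bool) × β) :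
    List (ℕ × Bool) × β :=
  ((e.1.filter fun p => decide (p.1 < m) && !s.contains p).dedup, e.2)

theorem clg_eq {β : Type} (m : ℕ) (s : List (ℕ × Bool)) (F : List (List (ℕ × Bool) × β)) :
    clg m s F = (F.filter (kp m s)).map (rd m s) := rfl

theorem kp_iff {β : Type} {m : ℕ} {s : List (ℕ × Bool)} {e : List (ℕ × Bool) × β} :
    kp m s e = true ↔ ∀ p ∈ e.1, (p.1, !p.2) ∉ s ∧ (p.1, !p.2) ∉ e.1 ∧ (m ≤ p.1 → p.2 = false) := by
  unfold kp
  rw [List.all_eq_true]
  refine forall₂_congr fun p _ => ?_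
  simp only [Bool.and_eq_true, Bool.not_eq_true', List.contains_eq_mem, decide_eq_false_iff_not,
    Bool.and_eq_false_iff, and_assoc]
  refine and_congr_right fun _ => and_congr_right fun _ => ?_
  constructor
  · rintro (h | h) h'
    · exact absurd h' h
    · exact h
  · intro h
    by_cases h' : m ≤ p.1
    · exact Or.inr (h h')
    · exact Or.inl h'

theorem mem_rd {β : Type} {m : ℕ} {s : List (ℕ × Bool)} {e : List (ℕ × Bool) × β} {p : ℕ × Bool} :
    p ∈ (rd m s e).1 ↔ p ∈ e.1 ∧ p.1 < m ∧ p ∉ s := by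
  unfold rd
  simp only [List.mem_dedup, List.mem_filter, Bool.and_eq_true, decide_eq_true_eq,
    Bool.not_eq_true', List.contains_eq_mem, decide_eq_false_iff_not]

/-- two entries with the same name are equal -/
theorem uniq {s : List (ℕ × Bool)} (hs : (s.map Prod.fst).Nodup) {p q : ℕ × Bool} (hp : p ∈ s)
    (hq : q ∈ s) (h : p.1 = q.1) : p = q :=
  List.inj_on_of_nodup_map hs hp hq h

theorem ov_mem {s : List (ℕ × Bool)} (hs : (s.map Prod.fst).Nodup) {p : ℕ × Bool} (hp : p ∈ s)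
    (b : ℕ → Bool) : ov s b p.1 = p.2 := by
  obtain ⟨v, β⟩ := p
  unfold ov ovb
  cases β with
  | true => simp [hp]
  | false =>
    have h : (v, true) ∉ s := by
      intro h
      have := uniq hs hp h rfl
      simp at this
    simp [hp, h]

theorem ov_not {s : List (ℕ × Bool)} {v : ℕ} (h : ∀ β, (v, β) ∉ s) (b : ℕ → Bool) :
    ov s b v = b v := by
  unfold ov ovb
  simp [h true, h false]

theorem kp_of_sat {β : Type} {m : ℕ} {s : List (ℕ × Bool)} (hs : (s.map Prod.fst).Nodup)
    (hm : ∀ p ∈ s, p.1 < m) {e : List (ℕ × Bool) × β} {y : Fin m → Bool}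
    (h : ∀ p ∈ e.1, ov s (PM.coins y) p.1 = p.2) : kp m s e = true := by
  rw [kp_iff]
  intro p hp
  have h0 := h p hp
  refine ⟨fun h1 => ?_, fun h1 => ?_, fun h1 => ?_⟩
  · have h2 := ov_mem hs h1 (PM.coins y)
    rw [h0] at h2
    cases hb : p.2 <;> simp [hb] at h2
  · have h2 := h _ h1
    rw [h0] at h2
    cases hb : p.2 <;> simp [hb] at h2
  · have h2 : ∀ β, (p.1, β) ∉ s := fun β h3 => absurd (hm _ h3) (not_lt.2 h1)
    rw [ov_not h2] at h0
    rw [← h0]
    unfold PM.coins
    rw [dif_neg (not_lt.2 h1)]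

theorem sat_iff {β : Type} {m : ℕ} {s : List (ℕ × Bool)} (hs : (s.map Prod.fst).Nodup)
    (hm : ∀ p ∈ s, p.1 < m) {e : List (ℕ × Bool) × β} (hk : kp m s e = true) (y : Fin m → Bool) :
    (∀ p ∈ (rd m s e).1, PM.coins y p.1 = p.2) ↔ ∀ p ∈ e.1, ov s (PM.coins y) p.1 = p.2 := by
  rw [kp_iff] at hk
  have key : ∀ p ∈ e.1, p ∉ s → ov s (PM.coins y) p.1 = PM.coins y p.1 := by
    intro p hp hps
    refine ov_not (fun β h => ?_) _
    have h1 := (hk p hp).1
    obtain ⟨v, c⟩ := p
    dsimp only at h h1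
    cases β <;> cases c <;> first | exact hps h | exact h1 h
  constructor
  · intro h p hp
    by_cases hps : p ∈ s
    · exact ov_mem hs hps _
    · rw [key p hp hps]
      by_cases hpm : p.1 < m
      · exact h p (mem_rd.2 ⟨hp, hpm, hps⟩)
      · rw [(hk p hp).2.2 (not_lt.1 hpm)]
        unfold PM.coins
        rw [dif_neg hpm]
  · intro h p hp
    obtain ⟨h1, h2, h3⟩ := mem_rd.1 hp
    rw [← key p h1 h3]
    exact h p h1

theorem evg_cons {β : Type} (d : β) (b : ℕ → Bool) (e : List (ℕ × Bool) × β)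
    (F : List (List (ℕ × Bool) × β)) :
    evg d b (e :: F) = if ∀ p ∈ e.1, b p.1 = p.2 then e.2 else evg d b F := rfl

/-- **CLG.** -/
theorem clg_stmt : ClgStmt := by
  intro β m s F d hs hm
  refine ⟨?_, ?_, fun y => ⟨?_, ?_⟩⟩
  · rw [clg_eq, List.length_map]
    exact List.length_filter_le _ _
  · intro e' he'
    rw [clg_eq, List.mem_map] at he'
    obtain ⟨e, he, rfl⟩ := he'
    rw [List.mem_filter] at he
    have hk := kp_iff.1 he.2
    refine ⟨List.nodup_dedup _, fun p hp => ?_, e, he.1, ?_, rfl⟩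
    · obtain ⟨h1, h2, h3⟩ := mem_rd.1 hp
      refine ⟨h2, fun h4 => ?_⟩
      exact (hk p h1).2.1 (mem_rd.1 h4).1
    · exact (List.dedup_sublist _).length_le.trans (List.length_filter_le _ _)
  · induction F with
    | nil => rfl
    | cons e F ih =>
      rw [clg_eq] at ih ⊢
      by_cases hk : kp m s e = true
      · rw [List.filter_cons_of_pos hk, List.map_cons, evg_cons, evg_cons, ih]
        by_cases hsat : ∀ p ∈ e.1, ov s (PM.coins y) p.1 = p.2
        · rw [if_pos hsat, if_pos ((sat_iff hs hm hk y).2 hsat)]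
          rfl
        · rw [if_neg hsat, if_neg (fun h => hsat ((sat_iff hs hm hk y).1 h))]
      · rw [List.filter_cons_of_neg hk, evg_cons, ih,
          if_neg (fun h => hk (kp_of_sat hs hm h))]
  · rintro ⟨e, he, hsat⟩
    have hk := kp_of_sat hs hm hsat
    refine ⟨rd m s e, ?_, (sat_iff hs hm hk y).2 hsat⟩
    rw [clg_eq, List.mem_map]
    exact ⟨e, List.mem_filter.2 ⟨he, hk⟩, rfl⟩

end Pool.Agent.Helper64.SM
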