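import Pool.Agent.Helper52.SM.Goals

/-!
# Project SM: the length of the pruned list (LEN)
-/

namespace Pool.Agent.Helper64.SM

open Pool.Agent.Helper52.SM
open Pool.Agent.Helper78
open Pool.Agent.Helper78.DT (pr av av_mono av_add av_sum pr_nonneg)
open scoped Classical

/-- One step of the memory. -/
theorem mem_succ {act : PM.View → ℕ} {c : ℕ} {x : List Bool} {b : ℕ → Bool} {i : ℕ} {M' : PM.Mem}
    (h : mem act c x b (i + 1) = some M') :
    ∃ M, mem act c x b i = some M ∧ (M' = M ∨ ∃ a, M' = M ++ [(i, a)]) := by
  rw [mem] at h
  split at h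
  · cases h
  · rename_i M hM
    refine ⟨M, hM, ?_⟩
    split_ifs at h
    · exact Or.inr ⟨_, (Option.some.inj h).symm⟩
    · exact Or.inl (Option.some.inj h).symm

/-- A list without repetitions has at most one element satisfying an exclusive property. -/
theorem sum_boole_le {α : Type} (S : Finset α) (p : α → Prop)
    (h : ∀ a a', p a → p a' → a = a') : (∑ a ∈ S, if p a then (1 : ℝ) else 0) ≤ 1 := by
  rw [Finset.sum_boole]
  have : (S.filter p).card ≤ 1 := by
    rw [Finset.card_le_one]
    intro a ha a' ha'
    exact h a a' (Finset.mem_filter.1 ha).2 (Finset.mem_filter.1 ha').2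
  exact_mod_cast this

theorem sum_qm (hMem : MemStmt) (act : PM.View → ℕ) (c : ℕ) (x : List Bool) (m : ℕ)
    (s : List (ℕ × Bool)) (i : ℕ) (M : PM.Mem) (hM : ∀ e ∈ M, e.1 < i)
    (S : Finset (List Bool)) :
    ∑ a ∈ S, qm act c x m s (i + 1) (M ++ [(i, a)]) + qm act c x m s (i + 1) M ≤
      qm act c x m s i M := by
  unfold qm pr
  rw [← av_sum, ← av_add]
  refine av_mono fun y => ?_
  beta_reduce
  set b := ov s (PM.coins y) with hb
  by_cases h : mem act c x b i = some M
  · rw [if_pos h]
    by_cases h1 : mem act c x b (i + 1) = some M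
    · rw [if_pos h1]
      have h2 : ∀ a, ¬ mem act c x b (i + 1) = some (M ++ [(i, a)]) := by
        intro a h3
        rw [h1] at h3
        have h4 := congrArg List.length (Option.some.inj h3)
        rw [List.length_append, List.length_singleton] at h4
        omega
      refine add_le_of_nonpos_left (Finset.sum_nonpos fun a _ => ?_)
      rw [if_neg (h2 a)]
    · rw [if_neg h1, add_zero]
      refine sum_boole_le S _ fun a a' ha ha' => ?_
      rw [ha] at ha'
      have h4 := List.append_cancel_left (Option.some.inj ha')
      simpa using h4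
  · rw [if_neg h]
    have h0 : ∀ a, mem act c x b (i + 1) ≠ some (M ++ [(i, a)]) := by
      intro a ha
      obtain ⟨M₁, h1, h2 | ⟨a', h2⟩⟩ := mem_succ ha
      · have h3 := (hMem act c x (fun _ _ => true) b 0 i M₁ h1).1 (i, a)
          (by rw [← h2]; simp)
        exact absurd h3 (lt_irrefl _)
      · have h3 := List.append_inj_left' h2 rfl
        rw [← h3] at h1
        exact h h1
    have h0' : mem act c x b (i + 1) ≠ some M := by
      intro ha
      obtain ⟨M₁, h1, h2 | ⟨a', h2⟩⟩ := mem_succ ha
      · rw [← h2] at h1
        exact h h1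
      · have h3 := hM (i, a') (by rw [h2]; simp)
        exact absurd h3 (lt_irrefl _)
    rw [if_neg h0', add_zero]
    refine Finset.sum_nonpos fun a _ => ?_
    rw [if_neg (h0 a)]

theorem len_stmt (hLvm : LvmStmt) (hMem : MemStmt) : LenStmt := by
  intro act c x m s ε hε n
  induction n with
  | zero =>
    intro i M l _
    simp [pl]
  | succ n ih =>
    intro i M l hM
    have hq0 : ∀ j N, 0 ≤ qm act c x m s j N := fun j N => pr_nonneg _
    obtain ⟨l1, l2, -, -⟩ := hLvm act x i M (PM.bd c x)
    set L : ℝ := 2 ^ PM.bd c x with hL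
    have hL0 : 0 < L := by positivity
    set K : ℝ := (1 + n * L) * (n + 1) / ε with hK
    have hn0 : (0 : ℝ) ≤ n := Nat.cast_nonneg n
    have hK0 : 0 ≤ K := by positivity
    set lv := lvM act x i M (PM.bd c x) with hlv
    have hM1 : ∀ e ∈ M, e.1 < i + 1 := fun e he => (hM e he).trans (Nat.lt_succ_self i)
    -- one leaf
    have hleaf : ∀ a ∈ lv, ((((fun a =>
        if act (x, i, M, a) = 1 then [(l ++ lit act x i M a, (Sum.inl false : Lab))]
        else if act (x, i, M, a) = 2 then [(l ++ lit act x i M a, Sum.inl true)]
        else if act (x, i, M, a) = 3 ∧ PM.msize M + a.length ≤ PM.bd c x then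
          (if Pe act c x m s ε i (M ++ [(i, a)]) then
              pl act c x (Pe act c x m s ε) n (i + 1) (M ++ [(i, a)]) (l ++ lit act x i M a)
            else [(l ++ lit act x i M a, Sum.inr (i, M ++ [(i, a)]))])
        else []) a).length : ℕ) : ℝ) ≤ 1 + K * qm act c x m s (i + 1) (M ++ [(i, a)]) := by
      intro a _
      have ht := hq0 (i + 1) (M ++ [(i, a)])
      have hKt : 0 ≤ K * qm act c x m s (i + 1) (M ++ [(i, a)]) := mul_nonneg hK0 ht
      dsimp only
      split_ifs with c1 c2 c3 c4
      · simpa using hKt
      · simpa using hKt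
      · refine (ih (i + 1) (M ++ [(i, a)]) _ ?_).trans ?_
        · intro e he
          rcases List.mem_append.1 he with he | he
          · exact hM1 e he
          · rw [List.mem_singleton] at he
            rw [he]
            exact Nat.lt_succ_self i
        · have h1 : ε ≤ qm act c x m s (i + 1) (M ++ [(i, a)]) := by
            simpa [Pe] using c4
          set t := qm act c x m s (i + 1) (M ++ [(i, a)]) with htd
          have h2 : 1 ≤ t / ε := (one_le_div hε).2 h1
          have h3 : (1 + n * L) * (1 + n * t / ε) ≤ (1 + n * L) * (t / ε + n * t / ε) := by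
            apply mul_le_mul_of_nonneg_left _ (by positivity)
            linarith
          have h4 : (1 + n * L) * (t / ε + n * t / ε) = K * t := by
            rw [hK]
            field_simp
            ring
          linarith
      · simpa using hKt
      · simp only [List.length_nil, Nat.cast_zero]
        linarith
    -- the sum over the leaves
    have hsum : (((lv.flatMap fun a =>
        if act (x, i, M, a) = 1 then [(l ++ lit act x i M a, (Sum.inl false : Lab))]
        else if act (x, i, M, a) = 2 then [(l ++ lit act x i M a, Sum.inl true)]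
        else if act (x, i, M, a) = 3 ∧ PM.msize M + a.length ≤ PM.bd c x then
          (if Pe act c x m s ε i (M ++ [(i, a)]) then
              pl act c x (Pe act c x m s ε) n (i + 1) (M ++ [(i, a)]) (l ++ lit act x i M a)
            else [(l ++ lit act x i M a, Sum.inr (i, M ++ [(i, a)]))])
        else []).length : ℕ) : ℝ) ≤
        L + K * ∑ a ∈ lv.toFinset, qm act c x m s (i + 1) (M ++ [(i, a)]) := by
      rw [List.length_flatMap, ← List.sum_toFinset _ l1, Nat.cast_sum]
      refine (Finset.sum_le_sum fun a ha => hleaf a (List.mem_toFinset.1 ha)).trans ?_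
      rw [Finset.sum_add_distrib, ← Finset.mul_sum, Finset.sum_const, nsmul_eq_mul, mul_one,
        List.toFinset_card_of_nodup l1]
      have : (lv.length : ℝ) ≤ L := by rw [hL]; exact_mod_cast l2
      linarith
    have htail := ih (i + 1) M l hM1
    have hq := sum_qm hMem act c x m s i M hM lv.toFinset
    rw [pl, List.length_append, Nat.cast_add]
    set q0 := qm act c x m s (i + 1) M with hq0d
    set q := qm act c x m s i M with hqd
    set Sg := ∑ a ∈ lv.toFinset, qm act c x m s (i + 1) (M ++ [(i, a)]) with hSg
    have hq00 : 0 ≤ q0 := hq0 _ _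
    have h5 : (1 + n * L) * (1 + n * q0 / ε) ≤ (1 + n * L) + K * q0 := by
      have : K * q0 = (1 + n * L) * ((n + 1) * q0 / ε) := by
        rw [hK]; field_simp
      rw [this, ← mul_one_add]
      apply mul_le_mul_of_nonneg_left _ (by positivity)
      have : n * q0 / ε ≤ (n + 1) * q0 / ε := by
        apply div_le_div_of_nonneg_right _ hε.le
        nlinarith
      linarith
    have h6 : K * Sg + K * q0 ≤ K * q := by
      rw [← mul_add]
      exact mul_le_mul_of_nonneg_left hq hK0
    have hqn : 0 ≤ q := hq0 _ _
    have h7 : 1 + ((n : ℝ) + 1) * L + K * q ≤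
        (1 + ((n : ℝ) + 1) * L) * (1 + ((n : ℝ) + 1) * q / ε) := by
      have h8 : K * q = (1 + n * L) * ((n + 1) * q / ε) := by
        rw [hK]; field_simp
      have h9 : 0 ≤ ((n : ℝ) + 1) * q / ε := by positivity
      have h10 : (1 + n * L) * ((n + 1) * q / ε) ≤ (1 + (n + 1) * L) * ((n + 1) * q / ε) := by
        apply mul_le_mul_of_nonneg_right _ h9
        nlinarith
      rw [h8, mul_one_add]
      linarith
    push_cast
    linarith

end Pool.Agent.Helper64.SM
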