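import Pool.Agent.Helper52.SM.Goals

/-!
# Project SM: light labels (MEM)
-/

namespace Pool.Agent.Helper64.SM.MEM

open Pool.Agent.Helper52.SM
open Pool.Agent.Helper78

theorem mem_lt {act : PM.View → ℕ} {c : ℕ} {x : List Bool} {b : ℕ → Bool} :
    ∀ (i : ℕ) (M : PM.Mem), mem act c x b i = some M → ∀ e ∈ M, e.1 < i := by
  intro i
  induction i with
  | zero =>
    intro M h e he
    rw [mem] at h
    rw [← Option.some.inj h] at he
    cases he
  | succ i ih =>
    intro M' h
    rw [mem] at h
    split at h
    · cases h
    · rename_i M hM
      have h0 := ih M hM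
      split_ifs at h
      · rw [← Option.some.inj h]
        intro e he
        rcases List.mem_append.1 he with he | he
        · exact (h0 e he).trans (Nat.lt_succ_self i)
        · rw [List.mem_singleton] at he
          rw [he]
          exact Nat.lt_succ_self i
      · rw [← Option.some.inj h]
        exact fun e he => (h0 e he).trans (Nat.lt_succ_self i)

theorem mem_stmt : MemStmt := by
  intro act c x P b n i M hM
  refine ⟨mem_lt i M hM, ?_⟩
  induction n generalizing i M with
  | zero =>
    intro j M' h
    rw [runP] at h
    cases h
  | succ n ih =>
    intro j M' h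
    have hs : mem act c x b (i + 1) =
      if act (x, i, M, PM.bits act x b i M (PM.bd c x)) = 1 ∨
          act (x, i, M, PM.bits act x b i M (PM.bd c x)) = 2 then none
      else if act (x, i, M, PM.bits act x b i M (PM.bd c x)) = 3 ∧
          PM.msize M + (PM.bits act x b i M (PM.bd c x)).length ≤ PM.bd c x then
        some (M ++ [(i, PM.bits act x b i M (PM.bd c x))])
      else some M := by
      rw [mem, hM]
    rw [runP] at h
    split_ifs at h with c1 c2 c3 c4
    · rw [if_neg (by rintro (h | h) <;> contradiction), if_pos c3] at hs
      exact ih (i + 1) _ hs j M' h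
    · rw [if_neg (by rintro (h | h) <;> contradiction), if_pos c3] at hs
      have h1 := Sum.inr.inj h
      have h2 : i = j := congrArg Prod.fst h1
      have h3 := congrArg Prod.snd h1
      dsimp only at h3
      subst h2
      rw [h3] at hs c4
      exact ⟨hs, by simpa using c4⟩
    · rw [if_neg (by rintro (h | h) <;> contradiction), if_neg c3] at hs
      exact ih (i + 1) _ hs j M' h

end Pool.Agent.Helper64.SM.MEM
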